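import Mathlib

/-!
# The eigenvalue equation for the two-row shape `(8,8)`
-/

set_option autoImplicit false

namespace Pool.Agent.W238.LB

/-- the identity behind the eigenvalue equation; `S r` stands for `g_r g_{16-r}` and `t r` for
`∑ x_i² ∂_i g_r ∂_i g_{16-r}`. -/
theorem eig8 {R : Type*} [CommRing R] (T : R) (S t : ℕ → R)
    (S9 : S 9 = S 7) (S10 : S 10 = S 6) (S11 : S 11 = S 5) (S12 : S 12 = S 4) (S13 : S 13 = S 3)
    (S14 : S 14 = S 2) (S15 : S 15 = S 1) (S16 : S 16 = S 0)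
    (t0 : t 0 = 0)
    (ht : ∀ r : ℕ, r < 16 → t r - t (r + 1) =
      T * (((r : R) + 1) * S (r + 1) - (16 - (r : R)) * S r)) (γ : ℕ → R)
    (γ0 : γ 0 = T*(T-1)*(T-2)*(T-3)*(T-4)*(T-5)*(T-6)*(T-7))
    (γ1 : γ 1 = -(T*(T-1)*(T-2)*(T-3)*(T-4)*(T-5)*(T-6)*(T+8)))
    (γ2 : γ 2 = T*(T-1)*(T-2)*(T-3)*(T-4)*(T-5)*(T+7)*(T+8))
    (γ3 : γ 3 = -(T*(T-1)*(T-2)*(T-3)*(T-4)*(T+6)*(T+7)*(T+8)))
    (γ4 : γ 4 = T*(T-1)*(T-2)*(T-3)*(T+5)*(T+6)*(T+7)*(T+8))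
    (γ5 : γ 5 = -(T*(T-1)*(T-2)*(T+4)*(T+5)*(T+6)*(T+7)*(T+8)))
    (γ6 : γ 6 = T*(T-1)*(T+3)*(T+4)*(T+5)*(T+6)*(T+7)*(T+8))
    (γ7 : γ 7 = -(T*(T+2)*(T+3)*(T+4)*(T+5)*(T+6)*(T+7)*(T+8)))
    (γ8 : γ 8 = (T+1)*(T+2)*(T+3)*(T+4)*(T+5)*(T+6)*(T+7)*(T+8))
    (γ9 : γ 9 = γ 7) (γ10 : γ 10 = γ 6) (γ11 : γ 11 = γ 5) (γ12 : γ 12 = γ 4) (γ13 : γ 13 = γ 3)
    (γ14 : γ 14 = γ 2) (γ15 : γ 15 = γ 1) (γ16 : γ 16 = γ 0) :
    ∑ r ∈ Finset.range 17, γ r * (((r : R) * (r - 1) + (16 - (r : R)) * (15 - r) - 112 + 16 * T) *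
      S r + 2 * t r) = 0 := by
  have e0 := ht 0 (by norm_num)
  have e1 := ht 1 (by norm_num)
  have e2 := ht 2 (by norm_num)
  have e3 := ht 3 (by norm_num)
  have e4 := ht 4 (by norm_num)
  have e5 := ht 5 (by norm_num)
  have e6 := ht 6 (by norm_num)
  have e7 := ht 7 (by norm_num)
  have e8 := ht 8 (by norm_num)
  have e9 := ht 9 (by norm_num)
  have e10 := ht 10 (by norm_num)
  have e11 := ht 11 (by norm_num)
  have e12 := ht 12 (by norm_num)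
  have e13 := ht 13 (by norm_num)
  have e14 := ht 14 (by norm_num)
  have e15 := ht 15 (by norm_num)
  norm_num at e0 e1 e2 e3 e4 e5 e6 e7 e8 e9 e10 e11 e12 e13 e14 e15
  have f1 : t 1 = T * (16 * S 0 - S 1) := by linear_combination t0 - e0
  have f2 : t 2 = T * (16 * S 0 + 14 * S 1 - 2 * S 2) := by linear_combination f1 - e1
  have f3 : t 3 = T * (16 * S 0 + 14 * S 1 + 12 * S 2 - 3 * S 3) := by linear_combination f2 - e2
  have f4 : t 4 = T * (16 * S 0 + 14 * S 1 + 12 * S 2 + 10 * S 3 - 4 * S 4) := by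
    linear_combination f3 - e3
  have f5 : t 5 = T * (16 * S 0 + 14 * S 1 + 12 * S 2 + 10 * S 3 + 8 * S 4 - 5 * S 5) := by
    linear_combination f4 - e4
  have f6 : t 6 = T * (16 * S 0 + 14 * S 1 + 12 * S 2 + 10 * S 3 + 8 * S 4 + 6 * S 5 - 6 * S 6) := by
    linear_combination f5 - e5
  have f7 : t 7 = T * (16 * S 0 + 14 * S 1 + 12 * S 2 + 10 * S 3 + 8 * S 4 + 6 * S 5 + 4 * S 6 -
    7 * S 7) := by
    linear_combination f6 - e6
  have f8 : t 8 = T * (16 * S 0 + 14 * S 1 + 12 * S 2 + 10 * S 3 + 8 * S 4 + 6 * S 5 + 4 * S 6 +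
    2 * S 7 - 8 * S 8) := by
    linear_combination f7 - e7
  rw [S9] at e8
  have f9 : t 9 = t 7 := by linear_combination f8 - e8 - f7
  rw [S9, S10] at e9
  have f10 : t 10 = t 6 := by linear_combination f9 + f7 - e9 - f6
  rw [S10, S11] at e10
  have f11 : t 11 = t 5 := by linear_combination f10 + f6 - e10 - f5
  rw [S11, S12] at e11
  have f12 : t 12 = t 4 := by linear_combination f11 + f5 - e11 - f4
  rw [S12, S13] at e12
  have f13 : t 13 = t 3 := by linear_combination f12 + f4 - e12 - f3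
  rw [S13, S14] at e13
  have f14 : t 14 = t 2 := by linear_combination f13 + f3 - e13 - f2
  rw [S14, S15] at e14
  have f15 : t 15 = t 1 := by linear_combination f14 + f2 - e14 - f1
  rw [S15, S16] at e15
  have f16 : t 16 = t 0 := by linear_combination f15 + f1 - e15 - t0
  simp only [Finset.sum_range_succ, Finset.sum_range_zero]
  rw [γ9, γ10, γ11, γ12, γ13, γ14, γ15, γ16, S9, S10, S11, S12, S13, S14, S15, S16,
    f9, f10, f11, f12, f13, f14, f15, f16, f1, f2, f3, f4, f5, f6, f7, f8, t0,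
    γ0, γ1, γ2, γ3, γ4, γ5, γ6, γ7, γ8]
  push_cast
  ring

end Pool.Agent.W238.LB
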