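import Mathlib

/-!
# The dual Jacobi-Trudi identity for the shape `(2^8)`
-/

set_option autoImplicit false

open Finset

namespace Pool.Agent.W238.LB

variable {A : Type*} [CommRing A]

/-- upper triangular Toeplitz matrix -/
def toep (H : ℕ → A) (n : ℕ) : Matrix (Fin n) (Fin n) A :=
  Matrix.of fun a b => if (a : ℕ) ≤ b then H (b - a) else 0

theorem toep_mul (H E : ℕ → A) (n : ℕ)
    (h : ∀ n, ∑ k ∈ range (n + 1), H k * E (n - k) = if n = 0 then 1 else 0) :
    toep H n * toep E n = 1 := by
  ext a c
  rw [Matrix.mul_apply]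
  simp only [toep, Matrix.of_apply]
  rw [Fin.sum_univ_eq_sum_range (fun b => (if (a : ℕ) ≤ b then H (b - a) else 0) *
    (if b ≤ (c : ℕ) then E (c - b) else 0)) n]
  by_cases hac : (a : ℕ) ≤ c
  · have h1 : ∑ b ∈ range n, (if (a : ℕ) ≤ b then H (b - a) else 0) *
        (if b ≤ (c : ℕ) then E (c - b) else 0) =
        ∑ k ∈ range ((c - a : ℕ) + 1), H k * E ((c - a : ℕ) - k) := by
      symm
      refine Finset.sum_of_injOn (fun k => k + (a : ℕ)) ?_ ?_ ?_ ?_
      · intro x _ y _ hxy
        simpa using hxy
      · intro k hk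
        simp only [Finset.coe_range, Set.mem_Iio] at hk ⊢
        have := c.2
        omega
      · intro b hb hb2
        rw [Finset.mem_range] at hb
        by_cases h1 : (a : ℕ) ≤ b
        · by_cases h2 : b ≤ (c : ℕ)
          · exfalso
            apply hb2
            refine ⟨b - a, ?_, ?_⟩
            · simp only [Finset.coe_range, Set.mem_Iio]
              omega
            · change b - (a : ℕ) + a = b
              omega
          · rw [if_neg h2, mul_zero]
        · rw [if_neg h1, zero_mul]
      · intro k hk
        rw [Finset.mem_range] at hk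
        rw [if_pos (by omega), if_pos (by omega)]
        congr 2 <;> omega
    rw [h1, h, Matrix.one_apply]
    by_cases hc : a = c
    · subst hc
      simp
    · have : (c - a : ℕ) ≠ 0 := by
        intro h0
        apply hc
        apply Fin.ext
        omega
      rw [if_neg this, if_neg hc]
  · rw [Matrix.one_apply, if_neg (by rintro rfl; exact hac le_rfl)]
    apply Finset.sum_eq_zero
    intro b _
    by_cases h1 : (a : ℕ) ≤ b
    · rw [if_neg (show ¬ b ≤ (c : ℕ) by omega), mul_zero]
    · rw [if_neg h1, zero_mul]

theorem det_toep (H : ℕ → A) (h0 : H 0 = 1) (n : ℕ) : (toep H n).det = 1 := by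
  rw [Matrix.det_of_isUpperTriangular]
  · simp [toep, h0]
  · intro i j hij
    simp only [toep, Matrix.of_apply]
    rw [if_neg]
    simp only [id] at hij
    have : (j : ℕ) < i := hij
    omega

/-- The matrix of the Jacobi-Trudi determinant. -/
def jt (H : ℕ → A) (mu : ℕ → ℕ) (n : ℕ) : Matrix (Fin n) (Fin n) A :=
  Matrix.of fun i j => if (i : ℕ) ≤ mu i + j then H (mu i + j - i) else 0

theorem det_jt (H E : ℕ → A) (h0 : H 0 = 1)
    (h : ∀ n, ∑ k ∈ range (n + 1), H k * E (n - k) = if n = 0 then 1 else 0) :
    (jt H (fun i => if i < 8 then 2 else 0) 16).det = E 8 * E 8 - E 7 * E 9 := by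
  set Q : Matrix (Fin 18) (Fin 18) A := Matrix.of fun a j =>
    if (j : ℕ) < 2 then (if (a : ℕ) ≤ 8 + j then E (8 + j - a) else 0)
    else if a = j then 1 else 0 with hQ
  -- the product
  have hTQ : ∀ a j : Fin 18, (toep H 18 * Q) a j =
      if (j : ℕ) < 2 then (if (a : ℕ) = 8 + j then 1 else 0) else toep H 18 a j := by
    intro a j
    by_cases hj : (j : ℕ) < 2
    · rw [if_pos hj]
      have h1 : (toep H 18 * Q) a j = (toep H 18 * toep E 18) a ⟨8 + j, by omega⟩ := by
        rw [Matrix.mul_apply, Matrix.mul_apply]
        apply Finset.sum_congr rfl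
        intro b _
        rw [hQ]
        simp only [Matrix.of_apply, if_pos hj, toep]
      rw [h1, toep_mul H E 18 h, Matrix.one_apply]
      simp only [Fin.ext_iff]
    · rw [if_neg hj, Matrix.mul_apply, Finset.sum_eq_single j]
      · rw [hQ, Matrix.of_apply, if_neg hj, if_pos rfl, mul_one]
      · intro b _ hb
        rw [hQ, Matrix.of_apply, if_neg hj, if_neg hb, mul_zero]
      · intro h
        exact absurd (mem_univ _) h
  have hdet1 : (toep H 18 * Q).det = Q.det := by
    rw [Matrix.det_mul, det_toep H h0, one_mul]
  have hdetQ : Q.det = E 8 * E 8 - E 7 * E 9 := by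
    have e : Q.submatrix (finSumFinEquiv (m := 2) (n := 16)) (finSumFinEquiv (m := 2) (n := 16)) =
        Matrix.fromBlocks (!![E 8, E 9; E 7, E 8]) 0
          (Matrix.of fun (i : Fin 16) (j : Fin 2) => Q (finSumFinEquiv (m := 2) (n := 16) (Sum.inr i))
            (finSumFinEquiv (m := 2) (n := 16) (Sum.inl j))) 1 := by
      refine Matrix.ext fun a b => ?_
      rcases a with a | a <;> rcases b with b | b
      · rw [Matrix.fromBlocks_apply₁₁]
        fin_cases a <;> fin_cases b <;> simp [hQ, finSumFinEquiv]
      · rw [Matrix.fromBlocks_apply₁₂]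
        have h1 := a.2
        have h2 : ((finSumFinEquiv (m := 2) (n := 16) (Sum.inr b) : Fin 18) : ℕ) = 2 + b := rfl
        have h3 : ((finSumFinEquiv (m := 2) (n := 16) (Sum.inl a) : Fin 18) : ℕ) = a := rfl
        rw [Matrix.submatrix_apply, hQ, Matrix.of_apply, if_neg (by rw [h2]; omega), if_neg]
        · rfl
        · rw [Fin.ext_iff, h2, h3]
          omega
      · rfl
      · have h2 : ((finSumFinEquiv (m := 2) (n := 16) (Sum.inr b) : Fin 18) : ℕ) = 2 + b := rfl
        have h3 : ((finSumFinEquiv (m := 2) (n := 16) (Sum.inr a) : Fin 18) : ℕ) = 2 + a := rfl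
        rw [Matrix.fromBlocks_apply₂₂, Matrix.one_apply, Matrix.submatrix_apply, hQ,
          Matrix.of_apply, if_neg (by rw [h2]; omega)]
        simp
    rw [← Matrix.det_submatrix_equiv_self (finSumFinEquiv (m := 2) (n := 16)) Q, e,
      Matrix.det_fromBlocks_zero₁₂, Matrix.det_fin_two_of]
    simp
    ring
  have hdetP : (toep H 18 * Q).det = (jt H (fun i => if i < 8 then 2 else 0) 16).det := by
    rw [Matrix.det_succ_column_zero, Finset.sum_eq_single (8 : Fin 18)]
    · rw [Matrix.det_succ_column_zero, Finset.sum_eq_single (8 : Fin 17)]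
      · have e1 : (toep H 18 * Q) 8 0 = 1 := by
          rw [hTQ]
          simp
        have e2 : ((toep H 18 * Q).submatrix (Fin.succAbove (8 : Fin 18)) Fin.succ) 8 0 = 1 := by
          rw [Matrix.submatrix_apply, hTQ]
          rfl
        rw [e1, e2]
        have e3 : ((toep H 18 * Q).submatrix (Fin.succAbove (8 : Fin 18)) Fin.succ).submatrix
            (Fin.succAbove (8 : Fin 17)) Fin.succ = jt H (fun i => if i < 8 then 2 else 0) 16 := by
          refine Matrix.ext fun i j => ?_
          rw [Matrix.submatrix_apply, Matrix.submatrix_apply, hTQ]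
          have h1 : ((Fin.succ (Fin.succ j) : Fin 18) : ℕ) = j + 2 := rfl
          have h2 : ((Fin.succAbove (8 : Fin 18) (Fin.succAbove (8 : Fin 17) i) : Fin 18) : ℕ) =
              if (i : ℕ) < 8 then (i : ℕ) else i + 2 := by
            fin_cases i <;> rfl
          rw [if_neg (by rw [h1]; omega)]
          simp only [toep, jt, Matrix.of_apply, h1, h2]
          by_cases hi : (i : ℕ) < 8
          · simp only [if_pos hi]
            by_cases h3 : (i : ℕ) ≤ j + 2
            · rw [if_pos h3, if_pos (by omega), add_comm]
            · rw [if_neg h3, if_neg (by omega)]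
          · simp only [if_neg hi]
            by_cases h3 : (i : ℕ) ≤ j
            · rw [if_pos (by omega), if_pos (by omega)]
              congr 1
              omega
            · rw [if_neg (by omega), if_neg (by omega)]
        rw [e3]
        have e4 : (-1 : A) ^ ((8 : Fin 18) : ℕ) = 1 := by
          change (-1 : A) ^ 8 = 1
          norm_num
        have e5 : (-1 : A) ^ ((8 : Fin 17) : ℕ) = 1 := by
          change (-1 : A) ^ 8 = 1
          norm_num
        rw [e4, e5]
        ring
      · intro i _ hi
        rw [Matrix.submatrix_apply, hTQ]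
        have h1 : ((Fin.succ (0 : Fin 17) : Fin 18) : ℕ) = 1 := rfl
        have h2 : ((Fin.succAbove (8 : Fin 18) i : Fin 18) : ℕ) ≠ 9 := by
          intro h3
          apply hi
          revert h3
          fin_cases i <;> decide
        rw [h1, if_pos (by norm_num), if_neg (by simpa using h2)]
        simp
      · intro h
        exact absurd (mem_univ _) h
    · intro i _ hi
      rw [hTQ]
      have h2 : (i : ℕ) ≠ 8 := by
        intro h3
        apply hi
        exact Fin.ext h3
      have h1 : ((0 : Fin 18) : ℕ) = 0 := rfl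
      rw [h1, if_pos (by norm_num), if_neg (by simpa using h2)]
      simp
    · intro h
      exact absurd (mem_univ _) h
  rw [← hdetP, hdet1, hdetQ]

end Pool.Agent.W238.LB
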