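import Pool.Agent.W238.LB.Coef
import Pool.Agent.W238.LB.Jac

/-!
# `H(x) E(-x) = 1`
-/

set_option autoImplicit false

open Finset

namespace Pool.Agent.W238.LB

variable {w v : ℕ → ℝ} {τ : ℝ}

theorem conv_eq (hw0 : w 0 = 1) (hv0 : v 0 = 1)
    (hw : ∀ k : ℕ, ((k : ℝ) + 1) * w (k + 1) = (τ + k) * w k)
    (hv : ∀ k : ℕ, ((k : ℝ) + 1) * v (k + 1) = (-τ + k) * v k) (n : ℕ) :
    ∑ k ∈ range (n + 1), w k * v (n - k) = if n = 0 then 1 else 0 := by
  have hrec : ∀ n : ℕ, ((n : ℝ) + 1) * ∑ k ∈ range (n + 2), w k * v (n + 1 - k) =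
      n * ∑ k ∈ range (n + 1), w k * v (n - k) := by
    intro n
    have h1 : ((n : ℝ) + 1) * ∑ k ∈ range (n + 2), w k * v (n + 1 - k) =
        ∑ k ∈ range (n + 2), (k : ℝ) * w k * v (n + 1 - k) +
        ∑ k ∈ range (n + 2), w k * (((n + 1 - k : ℕ) : ℝ) * v (n + 1 - k)) := by
      rw [Finset.mul_sum, ← Finset.sum_add_distrib]
      apply Finset.sum_congr rfl
      intro k hk
      rw [Finset.mem_range] at hk
      rw [Nat.cast_sub (by omega)]
      push_cast
      ring
    have h2 : ∑ k ∈ range (n + 2), (k : ℝ) * w k * v (n + 1 - k) =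
        ∑ k ∈ range (n + 1), (τ + k) * w k * v (n - k) := by
      rw [Finset.sum_range_succ']
      simp only [Nat.cast_zero, zero_mul, add_zero]
      apply Finset.sum_congr rfl
      intro k _
      have e : n + 1 - (k + 1) = n - k := by omega
      rw [e]
      push_cast
      rw [hw]
    have h3 : ∑ k ∈ range (n + 2), w k * (((n + 1 - k : ℕ) : ℝ) * v (n + 1 - k)) =
        ∑ k ∈ range (n + 1), w k * ((-τ + ((n - k : ℕ) : ℝ)) * v (n - k)) := by
      rw [Finset.sum_range_succ]
      simp only [Nat.sub_self, Nat.cast_zero, zero_mul, mul_zero, add_zero]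
      apply Finset.sum_congr rfl
      intro k hk
      rw [Finset.mem_range] at hk
      have e : n + 1 - k = (n - k) + 1 := by omega
      rw [e, ← hv]
      push_cast
      ring
    rw [h1, h2, h3, ← Finset.sum_add_distrib, Finset.mul_sum]
    apply Finset.sum_congr rfl
    intro k hk
    rw [Finset.mem_range] at hk
    rw [Nat.cast_sub (by omega)]
    ring
  have hz : ∀ n : ℕ, ∑ k ∈ range (n + 2), w k * v (n + 1 - k) = 0 := by
    intro n
    induction n with
    | zero =>
      have := hrec 0
      simpa using this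
    | succ n ih =>
      have := hrec (n + 1)
      rw [ih, mul_zero] at this
      rcases mul_eq_zero.1 this with h | h
      · exfalso
        have : (0 : ℝ) < ((n + 1 : ℕ) : ℝ) + 1 := by positivity
        linarith
      · exact h
  rcases n with _ | n
  · simp [hw0, hv0]
  · rw [if_neg (Nat.succ_ne_zero n)]
    exact hz n

theorem conv_hh (h : ∀ n : ℕ, ∑ k ∈ range (n + 1), w k * v (n - k) = if n = 0 then 1 else 0)
    (n : ℕ) : ∑ k ∈ range (n + 1), hh w k * hh v (n - k) = if n = 0 then 1 else 0 := by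
  set P : (ℕ → ℝ) → PowerSeries (Polynomial ℝ) := fun f => PowerSeries.mk fun k => Polynomial.C (f k)
    with hP
  set Z : (ℕ → ℝ) → PowerSeries (Polynomial ℝ) := fun f => PowerSeries.mk fun k =>
    Polynomial.C (f k) * Polynomial.X ^ k with hZ
  have hPZ : ∀ f : ℕ → ℝ, Z f * P f = PowerSeries.mk fun k => hh f k := by
    intro f
    ext1 k
    rw [PowerSeries.coeff_mul, PowerSeries.coeff_mk, hh,
      Finset.Nat.sum_antidiagonal_eq_sum_range_succ_mk]
    apply Finset.sum_congr rfl
    intro a _
    simp only [hZ, hP, PowerSeries.coeff_mk, Polynomial.C_mul]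
    ring
  have h1 : P w * P v = 1 := by
    ext1 k
    rw [PowerSeries.coeff_mul, Finset.Nat.sum_antidiagonal_eq_sum_range_succ_mk,
      PowerSeries.coeff_one]
    simp only [hP, PowerSeries.coeff_mk, ← Polynomial.C_mul]
    rw [← map_sum, h]
    split_ifs <;> simp
  have h2 : Z w * Z v = 1 := by
    ext1 k
    rw [PowerSeries.coeff_mul, Finset.Nat.sum_antidiagonal_eq_sum_range_succ_mk,
      PowerSeries.coeff_one]
    simp only [hZ, PowerSeries.coeff_mk]
    have e : ∀ x ∈ range k.succ, Polynomial.C (w x) * Polynomial.X ^ x *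
        (Polynomial.C (v (k - x)) * Polynomial.X ^ (k - x)) =
        Polynomial.C (w x * v (k - x)) * Polynomial.X ^ k := by
      intro x hx
      rw [Finset.mem_range] at hx
      have : k = x + (k - x) := by omega
      conv_rhs => rw [this, pow_add]
      rw [Polynomial.C_mul]
      have e2 : x + (k - x) - x = k - x := by omega
      rw [e2]
      ring
    rw [Finset.sum_congr rfl e, ← Finset.sum_mul, ← map_sum, h]
    split_ifs with hk
    · subst hk; simp
    · simp
  have h3 : (PowerSeries.mk fun k => hh w k) * (PowerSeries.mk fun k => hh v k) = 1 := by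
    rw [← hPZ, ← hPZ]
    calc Z w * P w * (Z v * P v) = (Z w * Z v) * (P w * P v) := by ring
      _ = 1 := by rw [h1, h2, one_mul]
  have h4 := congrArg (PowerSeries.coeff n) h3
  rw [PowerSeries.coeff_mul, Finset.Nat.sum_antidiagonal_eq_sum_range_succ_mk,
      PowerSeries.coeff_one] at h4
  simpa using h4

end Pool.Agent.W238.LB
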