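import Pool.Agent.W238.LB.Vand
import Pool.Agent.W238.LB.Series
import Pool.Agent.W238.LB.Eig8
import Pool.Agent.Helper487.Jack.Final8

/-!
# The integral Jack polynomial of shape `(8,8)` in 16 variables
-/

set_option autoImplicit false

open Finset Helper487.Jack

namespace Pool.Agent.W238.LB

/-- `binom(τ+k-1, k)` -/
noncomputable def ww (τ : ℝ) (k : ℕ) : ℝ := Polynomial.aeval τ (WP k)

/-- `(-1)^k binom(τ, k)` -/
noncomputable def vv (τ : ℝ) (k : ℕ) : ℝ := (-1) ^ k * Polynomial.aeval τ (VP k)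

/-- the coefficients of the Jack polynomial -/
noncomputable def cc (τ : ℝ) (r : ℕ) : ℝ := Polynomial.aeval τ (gamP 8 r)

theorem ww_zero (τ : ℝ) : ww τ 0 = 1 := by simp [ww, WP]

theorem vv_zero (τ : ℝ) : vv τ 0 = 1 := by simp [vv, VP]

theorem ww_rec (τ : ℝ) (k : ℕ) : ((k : ℝ) + 1) * ww τ (k + 1) = (τ + k) * ww τ k := by
  unfold ww WP
  rw [Finset.prod_range_succ, Nat.factorial_succ]
  simp only [map_mul, map_prod, Polynomial.aeval_C, map_add, Polynomial.aeval_X]
  have h1 : ((k : ℝ) + 1) ≠ 0 := by positivity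
  have h2 : (k.factorial : ℝ) ≠ 0 := by exact_mod_cast k.factorial_ne_zero
  push_cast
  field_simp

theorem vv_rec (τ : ℝ) (k : ℕ) : ((k : ℝ) + 1) * vv τ (k + 1) = (-τ + k) * vv τ k := by
  unfold vv VP
  rw [Finset.prod_range_succ, Nat.factorial_succ]
  simp only [map_mul, map_prod, Polynomial.aeval_C, map_sub, Polynomial.aeval_X]
  have h1 : ((k : ℝ) + 1) ≠ 0 := by positivity
  have h2 : (k.factorial : ℝ) ≠ 0 := by exact_mod_cast k.factorial_ne_zero
  push_cast
  field_simp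
  ring

theorem hE_cc (τ : ℝ) (J r : ℕ) (h1 : 8 < J) (h2 : r + J ≤ 16) :
    ∑ a ∈ range (J + 1), cc τ (r + a) * ww τ a * ww τ (J - a) = 0 := by
  have h := hE8 J r h1 (by omega)
  have h3 := congrArg (Polynomial.aeval τ) h
  unfold EP at h3
  rw [map_sum, map_zero] at h3
  simpa [cc, ww, map_mul] using h3

theorem aeval_Tsum (P : ℕ → Polynomial ℚ) (τ : ℝ) (r s a : ℕ) :
    Polynomial.aeval τ (Tsum P r s a) = Tsum (fun k => Polynomial.aeval τ (P k)) r s a := by
  unfold Tsum
  rw [map_sum]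
  apply Finset.sum_congr rfl
  intro i _
  split_ifs
  · simp only [map_mul]
  · simp

theorem Gam_hh_hh (c w : ℕ → ℝ) (a b : ℕ) (hab : a + b = 16) :
    Gam c 16 (hh w a * hh w b) = ∑ r ∈ range 17, c r * Tsum w r (16 - r) a := by
  rw [Gam_apply]
  apply Finset.sum_congr rfl
  intro r hr
  rw [Finset.mem_range] at hr
  congr 1
  rw [coeff_hh_mul_hh]
  unfold Tsum
  apply Finset.sum_congr rfl
  intro i hi
  rw [Finset.mem_range] at hi
  by_cases h : i ≤ r ∧ r - i ≤ b
  · rw [if_pos h, if_pos (by omega)]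
    congr 2
    omega
  · rw [if_neg h, if_neg (by omega)]

theorem norm_eq (τ : ℝ) : Nat.factorial 8 * Gam (cc τ) 16 (hh (ww τ) 8 * hh (ww τ) 8) =
    ∏ l ∈ range 8, (((l : ℝ) + 2 * τ) * (l + τ)) := by
  rw [Gam_hh_hh _ _ 8 8 rfl]
  have h := congrArg (Polynomial.aeval τ) hN8
  unfold N2P vP at h
  rw [map_mul, Polynomial.aeval_C, map_sum, map_prod] at h
  simp only [map_mul, map_add, Polynomial.aeval_C, Polynomial.aeval_X, map_natCast, map_ofNat,
    aeval_Tsum] at h
  exact h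

theorem hh_vv (τ : ℝ) (k : ℕ) :
    hh (vv τ) k = (-1) ^ k * hh (fun k => Polynomial.aeval τ (VP k)) k := by
  unfold hh
  rw [Finset.mul_sum]
  apply Finset.sum_congr rfl
  intro a ha
  rw [Finset.mem_range] at ha
  have e : vv τ a * vv τ (k - a) =
      (-1) ^ k * (Polynomial.aeval τ (VP a) * Polynomial.aeval τ (VP (k - a))) := by
    have hk : (-1 : ℝ) ^ k = (-1) ^ a * (-1) ^ (k - a) := by
      rw [← pow_add]
      congr 1
      omega
    unfold vv
    rw [hk]
    ring
  rw [e, Polynomial.C_mul]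
  simp only [map_pow, map_neg, map_one]
  ring

theorem schur_eq (τ : ℝ) : Nat.factorial 8 * Gam (cc τ) 16
    ((jt (hh (ww τ)) (fun i => if i < 8 then 2 else 0) 16).det) = Polynomial.aeval τ (cP 8) := by
  rw [det_jt (hh (ww τ)) (hh (vv τ)) (hh_zero (ww_zero τ))
    (conv_hh (conv_eq (ww_zero τ) (vv_zero τ) (ww_rec τ) (vv_rec τ)))]
  set u : ℕ → ℝ := fun k => Polynomial.aeval τ (VP k) with hu
  have e : hh (vv τ) 8 * hh (vv τ) 8 - hh (vv τ) 7 * hh (vv τ) 9 =
      hh u 8 * hh u 8 - hh u 9 * hh u 7 := by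
    rw [hh_vv, hh_vv, hh_vv]
    ring
  rw [e, map_sub, Gam_hh_hh _ _ 8 8 rfl, Gam_hh_hh _ _ 9 7 rfl, ← Finset.sum_sub_distrib]
  unfold cP
  rw [map_mul, Polynomial.aeval_C, map_sum, map_natCast]
  congr 1
  apply Finset.sum_congr rfl
  intro r _
  rw [map_mul, map_sub, aeval_Tsum, aeval_Tsum, mul_sub]
  rfl

/-- The integral Jack polynomial. -/
noncomputable def J8 (τ : ℝ) : PR 16 := MvPolynomial.C (Nat.factorial 8 : ℝ) * JJ 16 (ww τ) (cc τ) 16

theorem J8_symm (τ : ℝ) : (J8 τ).IsSymmetric := by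
  intro e
  unfold J8
  rw [map_mul, MvPolynomial.rename_C, isSymmetric_JJ]

theorem coeff_J8 (τ : ℝ) (m : Fin 16 →₀ ℕ) : (J8 τ).coeff m = Nat.factorial 8 *
    (JJ 16 (ww τ) (cc τ) 16).coeff m := by
  unfold J8
  rw [MvPolynomial.coeff_C_mul]

theorem J8_support (τ : ℝ) (m : Fin 16 →₀ ℕ) (hm : m ∈ (J8 τ).support) :
    ∑ i, m i = 16 ∧ ∀ i, m i ≤ 8 := by
  rw [MvPolynomial.mem_support_iff, coeff_J8] at hm
  have hm' := right_ne_zero_of_mul hm
  refine ⟨?_, fun i => ?_⟩
  · by_contra h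
    rw [coeff_JJ, if_neg h] at hm'
    exact hm' rfl
  · by_contra h
    exact hm' (coeff_JJ_eq_zero (cc τ) 16 8 (hE_cc τ) m i (not_le.1 h))

theorem J8_eigen (τ : ℝ) (hτ : 0 < τ) : ∃ q : Fin 16 → Fin 16 → MvPolynomial (Fin 16) ℝ, ∃ e : ℝ,
    (∀ i j : Fin 16, i < j →
      (MvPolynomial.X i - MvPolynomial.X j) * q i j =
        MvPolynomial.X i ^ 2 * MvPolynomial.pderiv i (J8 τ)
          - MvPolynomial.X j ^ 2 * MvPolynomial.pderiv j (J8 τ)) ∧
    ∑ i : Fin 16, MvPolynomial.X i ^ 2 * MvPolynomial.pderiv i (MvPolynomial.pderiv i (J8 τ))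
      + MvPolynomial.C (2 * τ) * ∑ i : Fin 16, ∑ j : Fin 16, (if i < j then q i j else 0)
      = MvPolynomial.C e * J8 τ := by
  refine ⟨fun i j => MvPolynomial.C (Nat.factorial 8 : ℝ) * qq 16 (ww τ) τ (cc τ) 16 i j,
    112 + 464 * τ, ?_, ?_⟩
  · intro i j hij
    have h := qq_spec (ww_rec τ) hτ.ne' (cc τ) 16 hij.ne
    unfold J8
    rw [MvPolynomial.pderiv_C_mul, MvPolynomial.pderiv_C_mul]
    linear_combination MvPolynomial.C (Nat.factorial 8 : ℝ) * h
  · have h := LB_JJ (d := 16) (ww_rec τ) hτ.ne' (cc τ) 16 (MvPolynomial.C (112 + 464 * τ)) ?_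
    · unfold J8
      simp only [MvPolynomial.pderiv_C_mul]
      have e1 : ∑ x : Fin 16, MvPolynomial.X x ^ 2 * (MvPolynomial.C (Nat.factorial 8 : ℝ) *
          (MvPolynomial.pderiv x) ((MvPolynomial.pderiv x) (JJ 16 (ww τ) (cc τ) 16))) =
          MvPolynomial.C (Nat.factorial 8 : ℝ) * ∑ x : Fin 16, MvPolynomial.X x ^ 2 *
          (MvPolynomial.pderiv x) ((MvPolynomial.pderiv x) (JJ 16 (ww τ) (cc τ) 16)) := by
        rw [Finset.mul_sum]
        exact Finset.sum_congr rfl fun _ _ => by ring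
      have e2 : ∑ i : Fin 16, ∑ j : Fin 16, (if i < j then MvPolynomial.C (Nat.factorial 8 : ℝ) *
          qq 16 (ww τ) τ (cc τ) 16 i j else 0) = MvPolynomial.C (Nat.factorial 8 : ℝ) *
          ∑ i : Fin 16, ∑ j : Fin 16, (if i < j then qq 16 (ww τ) τ (cc τ) 16 i j else 0) := by
        rw [Finset.mul_sum]
        apply Finset.sum_congr rfl
        intro i _
        rw [Finset.mul_sum]
        apply Finset.sum_congr rfl
        intro j _
        split_ifs
        · rfl
        · simp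
      rw [e1, e2]
      linear_combination MvPolynomial.C (Nat.factorial 8 : ℝ) * h
    · set G : ℕ → PR 16 := fun r => g 16 (ww τ) r with hG
      have key := eig8 (MvPolynomial.C τ : PR 16) (fun r => G r * G (16 - r))
        (fun r => TT 16 (ww τ) r (16 - r)) (mul_comm _ _) (mul_comm _ _) (mul_comm _ _)
        (mul_comm _ _) (mul_comm _ _) (mul_comm _ _) (mul_comm _ _) (mul_comm _ _)
        (TT_zero (ww_zero τ) 16) ?_ (fun r => MvPolynomial.C (cc τ r)) ?_ ?_ ?_ ?_ ?_ ?_ ?_ ?_ ?_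
        ?_ ?_ ?_ ?_ ?_ ?_ ?_ ?_
      · refine Eq.trans (Finset.sum_congr rfl fun r hr => ?_) key
        rw [Finset.mem_range] at hr
        simp only [hG]
        have e1 : (((16 - r : ℕ)) : PR 16) = 16 - (r : PR 16) := by
          rw [Nat.cast_sub (by omega)]
          rfl
        have e2 : (MvPolynomial.C (112 + 464 * τ) : PR 16) = 112 + 464 * MvPolynomial.C τ := by
          rw [MvPolynomial.C_add, MvPolynomial.C_mul]
          rfl
        unfold ev
        rw [e1, e2]
        push_cast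
        try ring
      · intro r hr
        have h1 := TT_rec (d := 16) (ww_rec τ) r (15 - r)
        have e1 : 15 - r + 1 = 16 - r := by omega
        have e2 : 16 - (r + 1) = 15 - r := by omega
        have e3 : (((15 - r : ℕ)) : PR 16) = 15 - (r : PR 16) := by
          rw [Nat.cast_sub (by omega)]
          rfl
        simp only [hG]
        rw [e1, e3] at h1
        rw [e2, h1]
        try ring
      all_goals
        simp only [cc, gamP, dst]
        norm_num [Finset.prod_range_succ]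
      all_goals
        simp only [map_ofNat]
        try ring

end Pool.Agent.W238.LB
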