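import Pool.Agent.W238.LB.Prod

/-!
# Coefficients of combinations of the products `g_r g_{N-r}`
-/

set_option autoImplicit false

open Finset

namespace Pool.Agent.W238.LB

variable {d : ℕ} {w : ℕ → ℝ}

/-- `∑_a w_a w_{k-a} z^a` -/
noncomputable def hh (w : ℕ → ℝ) (k : ℕ) : Polynomial ℝ :=
  ∑ a ∈ range (k + 1), Polynomial.C (w a * w (k - a)) * Polynomial.X ^ a

theorem hh_zero (hw0 : w 0 = 1) : hh w 0 = 1 := by
  simp [hh, hw0]

theorem coeff_hh (k r : ℕ) : (hh w k).coeff r = if r ≤ k then w r * w (k - r) else 0 := by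
  unfold hh
  rw [Polynomial.finsetSum_coeff]
  simp only [Polynomial.coeff_C_mul, Polynomial.coeff_X_pow]
  simp only [mul_ite, mul_one, mul_zero]
  rw [Finset.sum_ite_eq]
  simp

theorem natDegree_hh_le (k : ℕ) : (hh w k).natDegree ≤ k := by
  rw [Polynomial.natDegree_le_iff_coeff_eq_zero]
  intro r hr
  rw [coeff_hh, if_neg (by omega)]

theorem coeff_prod_hh (m : Fin d → ℕ) (r : ℕ) :
    (∏ i, hh w (m i)).coeff r =
      ∑ p ∈ Fintype.piFinset (fun i => range (m i + 1)),
        if ∑ i, p i = r then ∏ i, (w (p i) * w (m i - p i)) else 0 := by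
  classical
  unfold hh
  rw [Finset.prod_univ_sum, Polynomial.finsetSum_coeff]
  apply Finset.sum_congr rfl
  intro p _
  rw [Finset.prod_mul_distrib, Finset.prod_pow_eq_pow_sum, ← map_prod,
    Polynomial.coeff_C_mul, Polynomial.coeff_X_pow]
  by_cases h : ∑ i, p i = r
  · rw [if_pos h, if_pos h.symm, mul_one]
  · rw [if_neg h, if_neg (Ne.symm h), mul_zero]

theorem coeff_g_mul_g (N r : ℕ) (hr : r ≤ N) (m : Fin d →₀ ℕ) :
    (g d w r * g d w (N - r)).coeff m =
      if ∑ i, m i = N then (∏ i, hh w (m i)).coeff r else 0 := by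
  classical
  rw [MvPolynomial.coeff_mul]
  simp only [coeff_g]
  by_cases hm : ∑ i, m i = N
  · rw [if_pos hm, coeff_prod_hh]
    refine Finset.sum_nbij' (fun x => (x.1 : Fin d → ℕ))
      (fun p => (Finsupp.equivFunOnFinite.symm p, m - Finsupp.equivFunOnFinite.symm p)) ?_ ?_ ?_ ?_ ?_
    · rintro ⟨a, b⟩ hab
      rw [HasAntidiagonal.mem_antidiagonal] at hab
      rw [Fintype.mem_piFinset]
      intro i
      rw [Finset.mem_range]
      have := DFunLike.congr_fun hab i
      simp only [Finsupp.coe_add, Pi.add_apply] at this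
      change a i < m i + 1
      omega
    · intro p hp
      rw [Fintype.mem_piFinset] at hp
      rw [HasAntidiagonal.mem_antidiagonal]
      ext i
      have := hp i
      rw [Finset.mem_range] at this
      simp only [Finsupp.coe_add, Pi.add_apply, Finsupp.equivFunOnFinite_symm_apply_apply,
        Finsupp.coe_tsub, Pi.sub_apply]
      omega
    · rintro ⟨a, b⟩ hab
      rw [HasAntidiagonal.mem_antidiagonal] at hab
      simp only at hab ⊢
      ext i
      · simp
      · have := DFunLike.congr_fun hab i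
        simp only [Finsupp.coe_add, Pi.add_apply] at this
        simp
        omega
    · intro p _
      ext i
      simp
    · rintro ⟨a, b⟩ hab
      rw [HasAntidiagonal.mem_antidiagonal] at hab
      simp only at hab ⊢
      have hi : ∀ i, a i + b i = m i := fun i => by
        have := DFunLike.congr_fun hab i
        simpa using this
      have hb : ∀ i, m i - a i = b i := fun i => by have := hi i; omega
      have hsum : ∑ i, a i + ∑ i, b i = N := by
        rw [← Finset.sum_add_distrib, ← hm]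
        exact Finset.sum_congr rfl fun i _ => hi i
      by_cases h : ∑ i, a i = r
      · have h2 : ∑ i, b i = N - r := by omega
        rw [if_pos h, if_pos h2, if_pos h, ← Finset.prod_mul_distrib]
        exact Finset.prod_congr rfl fun i _ => by rw [hb i]
      · rw [if_neg h, if_neg h, zero_mul]
  · rw [if_neg hm]
    apply Finset.sum_eq_zero
    rintro ⟨a, b⟩ hab
    rw [HasAntidiagonal.mem_antidiagonal] at hab
    simp only at hab ⊢
    by_cases h : ∑ i, a i = r
    · by_cases h2 : ∑ i, b i = N - r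
      · exfalso
        apply hm
        have : ∑ i, m i = ∑ i, a i + ∑ i, b i := by
          rw [← Finset.sum_add_distrib]
          exact Finset.sum_congr rfl fun i _ => by
            have := DFunLike.congr_fun hab i
            simpa using this.symm
        omega
      · rw [if_neg h2, mul_zero]
    · rw [if_neg h, zero_mul]

/-- the linear functional `z^r ↦ c_r` on polynomials of degree at most `N` -/
noncomputable def Gam (c : ℕ → ℝ) (N : ℕ) : Polynomial ℝ →ₗ[ℝ] ℝ :=
  ∑ r ∈ range (N + 1), (c r) • Polynomial.lcoeff ℝ r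

theorem Gam_apply (c : ℕ → ℝ) (N : ℕ) (P : Polynomial ℝ) :
    Gam c N P = ∑ r ∈ range (N + 1), c r * P.coeff r := by
  simp [Gam, Polynomial.lcoeff]

theorem coeff_JJ (c : ℕ → ℝ) (N : ℕ) (m : Fin d →₀ ℕ) :
    (JJ d w c N).coeff m = if ∑ i, m i = N then Gam c N (∏ i, hh w (m i)) else 0 := by
  unfold JJ
  rw [MvPolynomial.coeff_sum]
  by_cases hm : ∑ i, m i = N
  · rw [if_pos hm, Gam_apply]
    apply Finset.sum_congr rfl
    intro r hr
    rw [Finset.mem_range] at hr
    rw [MvPolynomial.coeff_C_mul, coeff_g_mul_g N r (by omega), if_pos hm]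
  · rw [if_neg hm]
    apply Finset.sum_eq_zero
    intro r hr
    rw [Finset.mem_range] at hr
    rw [MvPolynomial.coeff_C_mul, coeff_g_mul_g N r (by omega), if_neg hm, mul_zero]

theorem Gam_hh_mul_X_pow (c : ℕ → ℝ) (N J r : ℕ) (h : r + J ≤ N) :
    Gam c N (hh w J * Polynomial.X ^ r) = ∑ a ∈ range (J + 1), c (r + a) * w a * w (J - a) := by
  unfold hh
  rw [Finset.sum_mul, map_sum]
  apply Finset.sum_congr rfl
  intro a ha
  rw [Finset.mem_range] at ha
  rw [mul_assoc, ← pow_add, ← Polynomial.smul_eq_C_mul, map_smul, Gam_apply]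
  simp only [Polynomial.coeff_X_pow, mul_ite, mul_one, mul_zero]
  rw [Finset.sum_ite_eq', if_pos (by rw [Finset.mem_range]; omega), smul_eq_mul, add_comm a r]
  ring

theorem Gam_hh_mul (c : ℕ → ℝ) (N J : ℕ)
    (hE : ∀ r, r + J ≤ N → ∑ a ∈ range (J + 1), c (r + a) * w a * w (J - a) = 0)
    (P : Polynomial ℝ) (hP : P.natDegree + J ≤ N) : Gam c N (hh w J * P) = 0 := by
  rw [Polynomial.as_sum_range_C_mul_X_pow P, Finset.mul_sum, map_sum]
  apply Finset.sum_eq_zero
  intro r hr
  rw [Finset.mem_range] at hr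
  have e : hh w J * (Polynomial.C (P.coeff r) * Polynomial.X ^ r) =
      P.coeff r • (hh w J * Polynomial.X ^ r) := by
    rw [Polynomial.smul_eq_C_mul]
    ring
  rw [e, map_smul, Gam_hh_mul_X_pow c N J r (by omega), hE r (by omega), smul_zero]

theorem coeff_JJ_eq_zero (c : ℕ → ℝ) (N M : ℕ)
    (hE : ∀ J r, M < J → r + J ≤ N → ∑ a ∈ range (J + 1), c (r + a) * w a * w (J - a) = 0)
    (m : Fin d →₀ ℕ) (i : Fin d) (hi : M < m i) : (JJ d w c N).coeff m = 0 := by
  classical
  rw [coeff_JJ]
  by_cases hm : ∑ i, m i = N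
  · rw [if_pos hm, ← Finset.mul_prod_erase univ _ (mem_univ i)]
    apply Gam_hh_mul c N (m i) (fun r hr => hE (m i) r hi hr)
    have h1 : (∏ j ∈ univ.erase i, hh w (m j)).natDegree ≤ ∑ j ∈ univ.erase i, m j :=
      (Polynomial.natDegree_prod_le _ _).trans (Finset.sum_le_sum fun j _ => natDegree_hh_le (m j))
    have h2 : ∑ j ∈ univ.erase i, m j + m i = N := by
      rw [Finset.sum_erase_add univ _ (mem_univ i), hm]
    omega
  · rw [if_neg hm]

/-- the coefficients of a product of two `hh`s -/
theorem coeff_hh_mul_hh (a b r : ℕ) :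
    (hh w a * hh w b).coeff r = ∑ i ∈ range (a + 1),
      if i ≤ r ∧ r - i ≤ b then w i * w (a - i) * w (r - i) * w (b - (r - i)) else 0 := by
  conv_lhs => rw [hh]
  rw [Finset.sum_mul, Polynomial.finsetSum_coeff]
  apply Finset.sum_congr rfl
  intro i _
  rw [mul_assoc, mul_comm (Polynomial.X ^ i), Polynomial.coeff_C_mul, Polynomial.coeff_mul_X_pow']
  by_cases h1 : i ≤ r
  · rw [if_pos h1, coeff_hh]
    by_cases h2 : r - i ≤ b
    · rw [if_pos h2, if_pos ⟨h1, h2⟩]
      ring
    · rw [if_neg h2, if_neg (fun h => h2 h.2), mul_zero]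
  · rw [if_neg h1, if_neg (fun h => h1 h.1), mul_zero]

end Pool.Agent.W238.LB
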