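import Mathlib

/-!
# The generators `g_r` and the Laplace-Beltrami operator

`g_r` is the coefficient of `z^r` in `∏_i (1 - x_i z)^{-τ}`.
-/

set_option autoImplicit false

open MvPolynomial Finset

namespace Pool.Agent.W238.LB

/-- `∑ ∏_i w(m_i) x^m`, over all exponents `m` of degree `r`. -/
noncomputable def g (d : ℕ) (w : ℕ → ℝ) (r : ℕ) : MvPolynomial (Fin d) ℝ :=
  ∑ m ∈ finsuppAntidiag univ r, monomial m (∏ i, w (m i))

variable {d : ℕ} {w : ℕ → ℝ}

theorem coeff_g (r : ℕ) (m : Fin d →₀ ℕ) :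
    coeff m (g d w r) = if ∑ i, m i = r then ∏ i, w (m i) else 0 := by
  classical
  unfold g
  rw [coeff_sum]
  simp only [coeff_monomial]
  rw [Finset.sum_ite_eq']
  simp [Finset.mem_finsuppAntidiag]

theorem isHomogeneous_g (r : ℕ) : (g d w r).IsHomogeneous r := by
  intro m hm
  rw [coeff_g] at hm
  by_contra h
  apply hm
  rw [if_neg]
  intro h2
  apply h
  rw [← h2, Finsupp.weight_apply, Finsupp.sum_fintype]
  · simp
  · simp

theorem g_zero (hw : w 0 = 1) : g d w 0 = 1 := by
  classical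
  ext m
  rw [coeff_g, coeff_one]
  by_cases h : m = 0
  · subst h
    simp [hw]
  · rw [if_neg (Ne.symm h), if_neg]
    intro h2
    apply h
    ext i
    have := (Finset.sum_eq_zero_iff.1 h2) i (mem_univ i)
    simpa using this

theorem euler_g (r : ℕ) : ∑ i : Fin d, X i * pderiv i (g d w r) = (r : MvPolynomial (Fin d) ℝ) * g d w r := by
  rw [(isHomogeneous_g r).sum_X_mul_pderiv, nsmul_eq_mul]

theorem rename_g (e : Equiv.Perm (Fin d)) (r : ℕ) : rename e (g d w r) = g d w r := by
  classical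
  ext m
  obtain ⟨m', rfl⟩ : ∃ m', m = Finsupp.mapDomain e m' :=
    ⟨Finsupp.mapDomain e.symm m, by
      rw [← Finsupp.mapDomain_comp]; simp⟩
  rw [coeff_rename_mapDomain _ e.injective, coeff_g, coeff_g]
  have h : ∀ i, (Finsupp.mapDomain e m') (e i) = m' i := fun i =>
    Finsupp.mapDomain_apply e.injective _ _
  have h1 : ∑ i, (Finsupp.mapDomain e m') i = ∑ i, m' i := by
    rw [← Equiv.sum_comp e]
    exact Finset.sum_congr rfl fun i _ => h i
  have h2 : ∏ i, w ((Finsupp.mapDomain e m') i) = ∏ i, w (m' i) := by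
    rw [← Equiv.prod_comp e]
    exact Finset.prod_congr rfl fun i _ => by rw [h i]
  rw [h1, h2]

theorem isSymmetric_g (r : ℕ) : (g d w r).IsSymmetric := fun e => rename_g e r

/-- The recursion `∂_i g_{r+1} = τ g_r + x_i ∂_i g_r`. -/
theorem pderiv_g {τ : ℝ} (hw : ∀ k : ℕ, ((k : ℝ) + 1) * w (k + 1) = (τ + k) * w k) (i : Fin d) (r : ℕ) :
    pderiv i (g d w (r + 1)) = C τ * g d w r + X i * pderiv i (g d w r) := by
  classical
  ext m
  rw [coeff_pderiv, coeff_add, coeff_C_mul, mul_comm (X i), coeff_mul_X', coeff_g, coeff_g]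
  have hprod : ∀ m' : Fin d →₀ ℕ, ∏ j, w (m' j) = w (m' i) * ∏ j ∈ univ.erase i, w (m' j) := by
    intro m'
    rw [← Finset.mul_prod_erase univ _ (mem_univ i)]
  have hrest : ∏ j ∈ univ.erase i, w ((m + Finsupp.single i 1 : Fin d →₀ ℕ) j) =
      ∏ j ∈ univ.erase i, w (m j) := by
    apply Finset.prod_congr rfl
    intro j hj
    rw [Finset.mem_erase] at hj
    simp [Finsupp.single_apply, Ne.symm hj.1]
  have hsum : ∑ j, (m + Finsupp.single i 1 : Fin d →₀ ℕ) j = ∑ j, m j + 1 := by
    simp [Finset.sum_add_distrib, Finsupp.single_apply]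
  rw [hprod (m + Finsupp.single i 1), hrest, hsum, hprod m]
  have hi : (m + Finsupp.single i 1 : Fin d →₀ ℕ) i = m i + 1 := by simp
  rw [hi]
  have hcond : (∑ j, m j + 1 = r + 1) ↔ (∑ j, m j = r) := by omega
  simp only [hcond]
  by_cases hmem : i ∈ m.support
  · rw [if_pos hmem, coeff_pderiv, coeff_g]
    have hmi : m i ≠ 0 := by simpa using hmem
    have e : m - Finsupp.single i 1 + Finsupp.single i 1 = m := by
      ext j
      simp only [Finsupp.coe_add, Finsupp.coe_tsub, Pi.add_apply, Pi.sub_apply,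
        Finsupp.single_apply]
      split_ifs with h
      · subst h; omega
      · simp
    rw [e, hprod m]
    have e2 : (((m - Finsupp.single i 1 : Fin d →₀ ℕ) i : ℕ) : ℝ) + 1 = m i := by
      have : (m - Finsupp.single i 1 : Fin d →₀ ℕ) i = m i - 1 := by simp
      rw [this]
      have h1 : 1 ≤ m i := Nat.one_le_iff_ne_zero.2 hmi
      rw [Nat.cast_sub h1]
      simp
    rw [e2]
    by_cases hs : ∑ j, m j = r
    · simp only [if_pos hs]
      have := hw (m i)
      linear_combination (∏ j ∈ univ.erase i, w (m j)) * this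
    · simp [if_neg hs]
  · rw [if_neg hmem]
    have hmi : m i = 0 := by simpa using hmem
    rw [hmi]
    by_cases hs : ∑ j, m j = r
    · simp only [if_pos hs]
      have := hw 0
      simp only [Nat.cast_zero, zero_add, add_zero] at this ⊢
      linear_combination (∏ j ∈ univ.erase i, w (m j)) * this
    · simp [if_neg hs]

end Pool.Agent.W238.LB
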