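import Pool.Agent.W238.LB.Gfun

/-!
# The Laplace-Beltrami operator on products `g_r g_s`
-/

set_option autoImplicit false

open MvPolynomial Finset

namespace Pool.Agent.W238.LB

variable {d : ℕ} {w : ℕ → ℝ} {τ : ℝ}

/-- polynomials in `d` variables -/
abbrev PR (d : ℕ) := MvPolynomial (Fin d) ℝ

theorem pderiv_comm' (i j : Fin d) (f : MvPolynomial (Fin d) ℝ) :
    pderiv i (pderiv j f) = pderiv j (pderiv i f) := by
  classical
  ext m
  rw [coeff_pderiv, coeff_pderiv, coeff_pderiv, coeff_pderiv, add_right_comm]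
  by_cases h : i = j
  · subst h; rfl
  · have h1 : (m + Finsupp.single i 1 : Fin d →₀ ℕ) j = m j := by simp [Finsupp.single_apply, h]
    have h2 : (m + Finsupp.single j 1 : Fin d →₀ ℕ) i = m i := by
      simp [Finsupp.single_apply, Ne.symm h]
    rw [h1, h2]
    ring

section

variable (hw : ∀ k : ℕ, ((k : ℝ) + 1) * w (k + 1) = (τ + k) * w k)

include hw

theorem mixed_one {i j : Fin d} (hij : i ≠ j) (r : ℕ) :
    pderiv i (pderiv j (g d w (r + 1))) =
      C τ * pderiv i (g d w r) + X j * pderiv i (pderiv j (g d w r)) := by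
  rw [pderiv_g hw, map_add, pderiv_C_mul, pderiv_mul, pderiv_X_of_ne (Ne.symm hij)]
  ring

theorem diag_one (i : Fin d) (r : ℕ) :
    pderiv i (pderiv i (g d w (r + 1))) =
      (C τ + 1) * pderiv i (g d w r) + X i * pderiv i (pderiv i (g d w r)) := by
  rw [pderiv_g hw, map_add, pderiv_C_mul, pderiv_mul, pderiv_X_self]
  ring

theorem mixed_two {i j : Fin d} (hij : i ≠ j) (r : ℕ) :
    (X i - X j) * pderiv i (pderiv j (g d w (r + 1))) =
      C τ * (X i * pderiv i (g d w r) - X j * pderiv j (g d w r)) := by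
  have h1 := mixed_one hw hij r
  have h2 := mixed_one hw (Ne.symm hij) r
  rw [pderiv_comm' j i, pderiv_comm' j i] at h2
  linear_combination X i * h1 - X j * h2

/-- The divided difference of `x_i ∂_i g_r`. -/
noncomputable def q1 (d : ℕ) (w : ℕ → ℝ) (τ : ℝ) (i j : Fin d) (r : ℕ) : MvPolynomial (Fin d) ℝ :=
  C τ⁻¹ * pderiv i (pderiv j (g d w (r + 2))) - C τ * g d w r

theorem q1_spec (hτ : τ ≠ 0) {i j : Fin d} (hij : i ≠ j) (r : ℕ) :
    (X i - X j) * q1 d w τ i j r =
      X i ^ 2 * pderiv i (g d w r) - X j ^ 2 * pderiv j (g d w r) := by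
  have h1 := mixed_two hw hij (r + 1)
  have hc : (C τ⁻¹ : MvPolynomial (Fin d) ℝ) * C τ = 1 := by
    rw [← C_mul, inv_mul_cancel₀ hτ, C_1]
  rw [pderiv_g hw i r, pderiv_g hw j r] at h1
  unfold q1
  linear_combination C τ⁻¹ * h1 + (X i * (C τ * g d w r + X i * pderiv i (g d w r)) -
    X j * (C τ * g d w r + X j * pderiv j (g d w r))) * hc

theorem sum_pderiv (r : ℕ) :
    ∑ i : Fin d, pderiv i (g d w (r + 1)) = ((d : PR d) * C τ + (r : PR d)) * g d w r := by
  have h := euler_g (d := d) (w := w) r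
  simp only [pderiv_g hw, Finset.sum_add_distrib, h]
  simp
  ring

theorem sum_pderiv_pderiv (r : ℕ) :
    ∑ i : Fin d, ∑ j : Fin d, pderiv i (pderiv j (g d w (r + 2))) =
      ((d : PR d) * C τ + (r : PR d) + 1) * ((d : PR d) * C τ + (r : PR d)) *
        g d w r := by
  have h : ∀ i : Fin d, ∑ j : Fin d, pderiv i (pderiv j (g d w (r + 2))) =
      ((d : PR d) * C τ + (r : PR d) + 1) * pderiv i (g d w (r + 1)) := by
    intro i
    rw [← map_sum, sum_pderiv hw (r + 1)]
    have e : ((d : PR d) * C τ + ((r + 1 : ℕ) : MvPolynomial (Fin d) ℝ)) =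
        C ((d : ℝ) * τ + r + 1) := by
      push_cast
      simp [map_add, map_mul]
      ring
    rw [e, pderiv_C_mul]
    simp [map_add, map_mul]
  simp only [h]
  rw [← Finset.mul_sum, sum_pderiv hw r]
  ring

theorem sum_diag (r : ℕ) :
    ∑ i : Fin d, pderiv i (pderiv i (g d w (r + 2))) =
      (C τ + 1) * ((d : PR d) * C τ + 2 * (r : PR d)) * g d w r +
        ∑ i : Fin d, X i ^ 2 * pderiv i (pderiv i (g d w r)) := by
  have h : ∀ i : Fin d, pderiv i (pderiv i (g d w (r + 2))) =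
      (C τ + 1) * pderiv i (g d w (r + 1)) + (C τ + 1) * (X i * pderiv i (g d w r)) +
        X i ^ 2 * pderiv i (pderiv i (g d w r)) := by
    intro i
    rw [diag_one hw i (r + 1), diag_one hw i r]
    ring
  simp only [h]
  rw [Finset.sum_add_distrib, Finset.sum_add_distrib, ← Finset.mul_sum, ← Finset.mul_sum,
    sum_pderiv hw r, euler_g]
  ring

end

theorem sum_lt_symm {M : Type*} [AddCommGroup M] (f : Fin d → Fin d → M)
    (hf : ∀ i j, f i j = f j i) :
    (2 : ℕ) • ∑ i : Fin d, ∑ j : Fin d, (if i < j then f i j else 0) + ∑ i : Fin d, f i i =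
      ∑ i : Fin d, ∑ j : Fin d, f i j := by
  have h1 : ∑ i : Fin d, ∑ j : Fin d, (if i < j then f i j else 0) =
      ∑ i : Fin d, ∑ j : Fin d, (if j < i then f i j else 0) := by
    rw [Finset.sum_comm]
    apply Finset.sum_congr rfl
    intro i _
    apply Finset.sum_congr rfl
    intro j _
    rw [hf]
  have h2 : ∑ i : Fin d, f i i = ∑ i : Fin d, ∑ j : Fin d, (if i = j then f i j else 0) := by
    apply Finset.sum_congr rfl
    intro i _
    rw [Finset.sum_ite_eq]
    simp
  rw [two_nsmul]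
  nth_rewrite 2 [h1]
  rw [h2, ← Finset.sum_add_distrib, ← Finset.sum_add_distrib]
  apply Finset.sum_congr rfl
  intro i _
  rw [← Finset.sum_add_distrib, ← Finset.sum_add_distrib]
  apply Finset.sum_congr rfl
  intro j _
  rcases lt_trichotomy i j with h | h | h
  · simp [h, not_lt.2 h.le, h.ne]
  · subst h; simp
  · simp [h, not_lt.2 h.le, h.ne']

section

variable (hw : ∀ k : ℕ, ((k : ℝ) + 1) * w (k + 1) = (τ + k) * w k)

include hw

/-- The eigenvalue of `g_r`. -/
theorem eigen_g (hτ : τ ≠ 0) (r : ℕ) :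
    ∑ i : Fin d, X i ^ 2 * pderiv i (pderiv i (g d w r)) +
      C (2 * τ) * ∑ i : Fin d, ∑ j : Fin d, (if i < j then q1 d w τ i j r else 0) =
    ((r : PR d) * ((r : PR d) - 1) + 2 * C τ * ((d : PR d) - 1) * (r : PR d)) *
      g d w r := by
  have hc : (C τ⁻¹ : MvPolynomial (Fin d) ℝ) * C τ = 1 := by
    rw [← C_mul, inv_mul_cancel₀ hτ, C_1]
  have hs := sum_lt_symm (fun i j : Fin d => q1 d w τ i j r) (by
    intro i j
    unfold q1
    rw [pderiv_comm'])
  have h1 : ∑ i : Fin d, ∑ j : Fin d, q1 d w τ i j r =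
      C τ⁻¹ * (((d : PR d) * C τ + (r : PR d) + 1) *
        ((d : PR d) * C τ + (r : PR d)) * g d w r) -
      (d : PR d) * (d : PR d) * (C τ * g d w r) := by
    unfold q1
    simp only [Finset.sum_sub_distrib, ← Finset.mul_sum, sum_pderiv_pderiv hw]
    simp
    ring
  have h2 : ∑ i : Fin d, q1 d w τ i i r =
      C τ⁻¹ * ((C τ + 1) * ((d : PR d) * C τ + 2 * (r : PR d)) * g d w r +
        ∑ i : Fin d, X i ^ 2 * pderiv i (pderiv i (g d w r))) -
      (d : PR d) * (C τ * g d w r) := by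
    unfold q1
    simp only [Finset.sum_sub_distrib, ← Finset.mul_sum, sum_diag hw]
    simp
    ring
  rw [h1, h2, nsmul_eq_mul] at hs
  have h3 : (C (2 * τ) : MvPolynomial (Fin d) ℝ) = 2 * C τ := by
    rw [C_mul]
    rfl
  rw [h3]
  push_cast at hs
  linear_combination C τ * hs + (((d : PR d) * C τ + (r : PR d) + 1) *
        ((d : PR d) * C τ + (r : PR d)) * g d w r -
        ((C τ + 1) * ((d : PR d) * C τ + 2 * (r : PR d)) * g d w r +
        ∑ i : Fin d, X i ^ 2 * pderiv i (pderiv i (g d w r)))) * hc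

/-- `∑_i x_i² ∂_i g_r ∂_i g_s` -/
noncomputable def TT (d : ℕ) (w : ℕ → ℝ) (r s : ℕ) : MvPolynomial (Fin d) ℝ :=
  ∑ i : Fin d, (X i * pderiv i (g d w r)) * (X i * pderiv i (g d w s))

theorem TT_rec (r s : ℕ) : TT d w r (s + 1) - TT d w (r + 1) s =
    C τ * (((r : PR d) + 1) * g d w (r + 1) * g d w s -
      ((s : PR d) + 1) * g d w r * g d w (s + 1)) := by
  have h1 := euler_g (d := d) (w := w) (r + 1)
  have h2 := euler_g (d := d) (w := w) (s + 1)
  unfold TT
  push_cast at h1 h2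
  rw [← Finset.sum_sub_distrib, ← h1]
  have e : ∀ i : Fin d, (X i * pderiv i (g d w r)) * (X i * pderiv i (g d w (s + 1))) -
      (X i * pderiv i (g d w (r + 1))) * (X i * pderiv i (g d w s)) =
      C τ * ((X i * pderiv i (g d w (r + 1))) * g d w s - g d w r * (X i * pderiv i (g d w (s + 1)))) := by
    intro i
    rw [pderiv_g hw, pderiv_g hw]
    ring
  simp only [e]
  rw [← Finset.mul_sum, Finset.sum_sub_distrib, ← Finset.sum_mul, ← Finset.mul_sum, h2]
  ring

end

theorem TT_zero (hw0 : w 0 = 1) (s : ℕ) : TT d w 0 s = 0 := by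
  unfold TT
  rw [g_zero hw0]
  simp

end Pool.Agent.W238.LB
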