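import Pool.Agent.W238.LB.Oper

/-!
# The Laplace-Beltrami operator on combinations of the products `g_r g_{N-r}`
-/

set_option autoImplicit false

open MvPolynomial Finset

namespace Pool.Agent.W238.LB

variable {d : ℕ} {w : ℕ → ℝ} {τ : ℝ}

/-- `∑_r c_r g_r g_{N-r}` -/
noncomputable def JJ (d : ℕ) (w : ℕ → ℝ) (c : ℕ → ℝ) (N : ℕ) : PR d :=
  ∑ r ∈ range (N + 1), C (c r) * (g d w r * g d w (N - r))

/-- The divided differences. -/
noncomputable def qq (d : ℕ) (w : ℕ → ℝ) (τ : ℝ) (c : ℕ → ℝ) (N : ℕ) (i j : Fin d) : PR d :=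
  ∑ r ∈ range (N + 1), C (c r) *
    (g d w (N - r) * q1 d w τ i j r + g d w r * q1 d w τ i j (N - r))

/-- The eigenvalue of `g_r`. -/
noncomputable def ev (d : ℕ) (τ : ℝ) (r : ℕ) : PR d :=
  (r : PR d) * ((r : PR d) - 1) + 2 * C τ * ((d : PR d) - 1) * (r : PR d)

theorem isSymmetric_JJ (c : ℕ → ℝ) (N : ℕ) : (JJ d w c N).IsSymmetric := by
  intro e
  unfold JJ
  rw [map_sum]
  apply Finset.sum_congr rfl
  intro r _
  rw [map_mul, map_mul, rename_g, rename_g, rename_C]

section

variable (hw : ∀ k : ℕ, ((k : ℝ) + 1) * w (k + 1) = (τ + k) * w k)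

include hw

theorem qq_spec (hτ : τ ≠ 0) (c : ℕ → ℝ) (N : ℕ) {i j : Fin d} (hij : i ≠ j) :
    (X i - X j) * qq d w τ c N i j =
      X i ^ 2 * pderiv i (JJ d w c N) - X j ^ 2 * pderiv j (JJ d w c N) := by
  unfold qq JJ
  rw [map_sum, map_sum, Finset.mul_sum, Finset.mul_sum, Finset.mul_sum, ← Finset.sum_sub_distrib]
  apply Finset.sum_congr rfl
  intro r _
  have h1 := q1_spec hw hτ hij r
  have h2 := q1_spec hw hτ hij (N - r)
  rw [pderiv_C_mul, pderiv_C_mul, pderiv_mul, pderiv_mul]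
  linear_combination C (c r) * g d w (N - r) * h1 + C (c r) * g d w r * h2

theorem LB_JJ (hτ : τ ≠ 0) (c : ℕ → ℝ) (N : ℕ) (E : PR d)
    (h : ∑ r ∈ range (N + 1), C (c r) * ((ev d τ r + ev d τ (N - r) - E) *
      (g d w r * g d w (N - r)) + 2 * TT d w r (N - r)) = 0) :
    ∑ i : Fin d, X i ^ 2 * pderiv i (pderiv i (JJ d w c N)) +
      C (2 * τ) * ∑ i : Fin d, ∑ j : Fin d, (if i < j then qq d w τ c N i j else 0) =
      E * JJ d w c N := by
  have h1 : ∑ i : Fin d, X i ^ 2 * pderiv i (pderiv i (JJ d w c N)) =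
      ∑ r ∈ range (N + 1), C (c r) * (g d w (N - r) *
        ∑ i : Fin d, X i ^ 2 * pderiv i (pderiv i (g d w r)) + g d w r *
        ∑ i : Fin d, X i ^ 2 * pderiv i (pderiv i (g d w (N - r))) + 2 * TT d w r (N - r)) := by
    unfold JJ TT
    simp only [map_sum]
    simp only [Finset.mul_sum]
    rw [Finset.sum_comm]
    apply Finset.sum_congr rfl
    intro r _
    rw [← Finset.sum_add_distrib, ← Finset.sum_add_distrib, Finset.mul_sum]
    apply Finset.sum_congr rfl
    intro i _
    rw [pderiv_C_mul, pderiv_C_mul, pderiv_mul, map_add, pderiv_mul, pderiv_mul]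
    ring
  have h2 : ∑ i : Fin d, ∑ j : Fin d, (if i < j then qq d w τ c N i j else 0) =
      ∑ r ∈ range (N + 1), C (c r) * (g d w (N - r) *
        (∑ i : Fin d, ∑ j : Fin d, (if i < j then q1 d w τ i j r else 0)) + g d w r *
        (∑ i : Fin d, ∑ j : Fin d, (if i < j then q1 d w τ i j (N - r) else 0))) := by
    have e : ∀ i j : Fin d, (if i < j then qq d w τ c N i j else 0) =
        ∑ r ∈ range (N + 1), C (c r) * (g d w (N - r) *
        (if i < j then q1 d w τ i j r else 0) + g d w r *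
        (if i < j then q1 d w τ i j (N - r) else 0)) := by
      intro i j
      by_cases hij : i < j
      · simp only [if_pos hij]; rfl
      · simp only [if_neg hij]; simp
    simp only [e]
    rw [Finset.sum_congr rfl fun i _ => Finset.sum_comm, Finset.sum_comm]
    apply Finset.sum_congr rfl
    intro r _
    simp only [Finset.mul_sum, mul_add, Finset.sum_add_distrib]
  rw [h1, h2]
  have h3 : E * JJ d w c N = ∑ r ∈ range (N + 1), C (c r) * (E * (g d w r * g d w (N - r))) := by
    unfold JJ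
    rw [Finset.mul_sum]
    apply Finset.sum_congr rfl
    intro r _
    ring
  rw [h3]
  refine sub_eq_zero.1 (Eq.trans ?_ h)
  rw [Finset.mul_sum, ← Finset.sum_add_distrib, ← Finset.sum_sub_distrib]
  apply Finset.sum_congr rfl
  intro r _
  have e1 := eigen_g (d := d) hw hτ r
  have e2 := eigen_g (d := d) hw hτ (N - r)
  unfold ev
  linear_combination C (c r) * g d w (N - r) * e1 + C (c r) * g d w r * e2

end

end Pool.Agent.W238.LB
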