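import Pool.Agent.W238.LB.Coef

/-!
# The coefficient of `x^{μ+δ}` in the product with the Vandermonde determinant
-/

set_option autoImplicit false

open Finset

namespace Pool.Agent.W238.LB

variable {d : ℕ} {w : ℕ → ℝ}

theorem vand_eq (d : ℕ) :
    (∏ i : Fin d, ∏ j : Fin d, (if i < j then MvPolynomial.X i - MvPolynomial.X j
      else (1 : MvPolynomial (Fin d) ℝ))) =
    Matrix.det (Matrix.of fun i j : Fin d => (MvPolynomial.X i : MvPolynomial (Fin d) ℝ) ^ ((Fin.rev j : Fin d) : ℕ)) := by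
  have h1 := Matrix.det_vandermonde (fun i : Fin d => (MvPolynomial.X (Fin.rev i) : MvPolynomial (Fin d) ℝ))
  have h2 : Matrix.det (Matrix.of fun i j : Fin d => (MvPolynomial.X i : MvPolynomial (Fin d) ℝ) ^ ((Fin.rev j : Fin d) : ℕ)) =
      Matrix.det (Matrix.vandermonde (fun i : Fin d => (MvPolynomial.X (Fin.rev i) : MvPolynomial (Fin d) ℝ))) := by
    rw [← Matrix.det_submatrix_equiv_self Fin.revPerm]
    congr 1
    refine Matrix.ext fun i j => ?_
    change (MvPolynomial.X (Fin.rev i) : MvPolynomial (Fin d) ℝ) ^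
      ((Fin.rev (Fin.rev j) : Fin d) : ℕ) = MvPolynomial.X (Fin.rev i) ^ (j : ℕ)
    rw [Fin.rev_rev]
  rw [h2, h1]
  have h3 : ∀ i : Fin d, ∏ j ∈ Ioi i, ((MvPolynomial.X (Fin.rev j) : MvPolynomial (Fin d) ℝ) -
      MvPolynomial.X (Fin.rev i)) = ∏ j : Fin d, if i < j then ((MvPolynomial.X (Fin.rev j) : MvPolynomial (Fin d) ℝ) -
      MvPolynomial.X (Fin.rev i)) else 1 := by
    intro i
    rw [← Finset.prod_filter]
    apply Finset.prod_congr _ fun _ _ => rfl
    ext j
    simp
  rw [Finset.prod_congr rfl fun i _ => h3 i]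
  rw [← Equiv.prod_comp Fin.revPerm]
  rw [Finset.prod_congr rfl fun i _ => (Equiv.prod_comp Fin.revPerm _).symm]
  rw [Finset.prod_comm]
  apply Finset.prod_congr rfl
  intro i _
  apply Finset.prod_congr rfl
  intro j _
  simp [Fin.rev_lt_rev]

theorem coeff_JJ_mul_vand (hw0 : w 0 = 1) (c : ℕ → ℝ) (N : ℕ) (mu : ℕ → ℕ)
    (hmu : ∑ i : Fin d, mu i = N) :
    MvPolynomial.coeff
      (Finsupp.equivFunOnFinite.symm (fun i : Fin d => mu (i : ℕ) + (d - 1 - (i : ℕ))))
      (JJ d w c N * ∏ i : Fin d, ∏ j : Fin d, (if i < j then MvPolynomial.X i - MvPolynomial.X j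
      else (1 : MvPolynomial (Fin d) ℝ))) =
    Gam c N (Matrix.det (Matrix.of fun i j : Fin d =>
      if (i : ℕ) ≤ mu i + j then hh w (mu i + j - i) else 0)) := by
  classical
  rw [vand_eq, ← Matrix.det_transpose, Matrix.det_apply',
    ← Matrix.det_transpose (Matrix.of fun i j : Fin d => _), Matrix.det_apply', Finset.mul_sum,
    MvPolynomial.coeff_sum, map_sum]
  apply Finset.sum_congr rfl
  intro σ _
  set e : Fin d →₀ ℕ :=
    Finsupp.equivFunOnFinite.symm (fun i : Fin d => mu (i : ℕ) + (d - 1 - (i : ℕ))) with he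
  set s : Fin d →₀ ℕ := Finsupp.equivFunOnFinite.symm (fun i : Fin d => d - 1 - (σ i : ℕ)) with hs
  have hprod : ∏ i, (Matrix.of fun i j : Fin d => (MvPolynomial.X i : MvPolynomial (Fin d) ℝ) ^
      ((Fin.rev j : Fin d) : ℕ)).transpose (σ i) i = MvPolynomial.monomial s 1 := by
    rw [MvPolynomial.monomial_eq, MvPolynomial.C_1, one_mul, Finsupp.prod_fintype _ _ (by simp)]
    apply Finset.prod_congr rfl
    intro i _
    change (MvPolynomial.X i : MvPolynomial (Fin d) ℝ) ^ ((Fin.rev (σ i) : Fin d) : ℕ) = _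
    rw [Fin.val_rev, hs]
    congr 1
    simp
    omega
  rw [hprod]
  have hsgn : ((Equiv.Perm.sign σ : ℤ) : MvPolynomial (Fin d) ℝ) =
      MvPolynomial.C (((Equiv.Perm.sign σ : ℤ) : ℝ)) := by simp
  have hsgn' : (((Equiv.Perm.sign σ : ℤ) : Polynomial ℝ)) * (∏ i, (Matrix.of fun i j : Fin d =>
      if (i : ℕ) ≤ mu i + j then hh w (mu i + j - i) else 0).transpose (σ i) i) =
      (((Equiv.Perm.sign σ : ℤ) : ℝ)) • (∏ i, (Matrix.of fun i j : Fin d =>
      if (i : ℕ) ≤ mu i + j then hh w (mu i + j - i) else 0).transpose (σ i) i) := by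
    rw [Polynomial.smul_eq_C_mul]
    simp
  rw [hsgn', map_smul, hsgn, mul_left_comm, MvPolynomial.coeff_C_mul, smul_eq_mul]
  congr 1
  rw [MvPolynomial.coeff_mul_monomial']
  have hent : ∀ i, (Matrix.of fun i j : Fin d =>
      if (i : ℕ) ≤ mu i + j then hh w (mu i + j - i) else 0).transpose (σ i) i =
      if (i : ℕ) ≤ mu i + (σ i : ℕ) then hh w (mu i + (σ i : ℕ) - i) else 0 := fun i => rfl
  simp only [hent]
  by_cases hle : s ≤ e
  · have hle' : ∀ i : Fin d, (i : ℕ) ≤ mu i + (σ i : ℕ) := by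
      intro i
      have h := hle i
      rw [hs, he] at h
      simp only [Finsupp.equivFunOnFinite_symm_apply_apply] at h
      have h1 := i.2
      have h2 := (σ i).2
      omega
    have hval : ∀ i : Fin d, (e - s) i = mu i + (σ i : ℕ) - i := by
      intro i
      rw [Finsupp.tsub_apply, hs, he]
      simp only [Finsupp.equivFunOnFinite_symm_apply_apply]
      have h := hle' i
      have h1 := i.2
      have h2 := (σ i).2
      omega
    rw [if_pos hle, mul_one, coeff_JJ]
    have hsum : ∑ i, (e - s) i = N := by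
      simp only [hval]
      have h3 : ∑ i : Fin d, (mu i + (σ i : ℕ) - (i : ℕ)) + ∑ i : Fin d, (i : ℕ) =
          ∑ i : Fin d, mu i + ∑ i : Fin d, (σ i : ℕ) := by
        rw [← Finset.sum_add_distrib, ← Finset.sum_add_distrib]
        apply Finset.sum_congr rfl
        intro i _
        have := hle' i
        omega
      have h4 : ∑ i : Fin d, (σ i : ℕ) = ∑ i : Fin d, (i : ℕ) := Equiv.sum_comp σ (fun i => (i : ℕ))
      omega
    rw [if_pos hsum]
    congr 1
    apply Finset.prod_congr rfl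
    intro i _
    rw [if_pos (hle' i), hval]
  · rw [if_neg hle]
    have hex : ∃ i : Fin d, ¬ ((i : ℕ) ≤ mu i + (σ i : ℕ)) := by
      by_contra hcon
      push Not at hcon
      apply hle
      intro i
      rw [hs, he]
      simp only [Finsupp.equivFunOnFinite_symm_apply_apply]
      have h := hcon i
      have h1 := i.2
      have h2 := (σ i).2
      omega
    obtain ⟨i, hi⟩ := hex
    rw [Finset.prod_eq_zero (mem_univ i) (if_neg hi), map_zero]

end Pool.Agent.W238.LB
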